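import Mathlib
import Pool.Agent.helper60.MW.Spec

set_option autoImplicit false

/-! Row DMS: the mass of the density tree of a measurable set is its area -/

namespace Pool.Agent.MW

open MeasureTheory Set Pool.Agent.helper17.Worm

private lemma DMS_ivl (L : ℕ) (t : ℝ) (x : ℤ) :
    ((x : ℝ) / 2 ^ L ≤ t ∧ t < (x : ℝ) / 2 ^ L + 1 / 2 ^ L) ↔ ⌊t * 2 ^ L⌋ = x := by
  have hp : (0 : ℝ) < 2 ^ L := by positivity
  rw [Int.floor_eq_iff, ← add_div, div_le_iff₀ hp, lt_div_iff₀ hp]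

private lemma DMS_mem (L : ℕ) (x y : ℤ) (z : ℂ) :
    z ∈ lsq L x y ↔ ⌊z.re * 2 ^ L⌋ = x ∧ ⌊z.im * 2 ^ L⌋ = y := by
  unfold lsq
  rw [mem_rc, DMS_ivl, DMS_ivl]

theorem DMS : DMS_stmt := by
  intro X hX L
  unfold mass
  have h0 : (0 : ℝ) ≤ 1 / 2 ^ L := by positivity
  have h1 : ∀ s : ℤ × ℤ, ENNReal.ofReal (den X L s.1 s.2 / 4 ^ L) = volume (X ∩ lsq L s.1 s.2) := by
    intro s
    unfold den
    have h4 : (4 : ℝ) ^ L ≠ 0 := by positivity
    rw [mul_div_assoc, div_self h4, mul_one, measureReal_def, ENNReal.ofReal_toReal]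
    refine ne_top_of_le_ne_top ?_ (measure_mono inter_subset_right)
    unfold lsq
    rw [volume_rc h0 h0]
    exact ENNReal.ofReal_ne_top
  simp_rw [h1]
  rw [← measure_iUnion]
  · congr 1
    ext z
    simp only [mem_iUnion, mem_inter_iff]
    constructor
    · rintro ⟨s, hz, -⟩
      exact hz
    · intro hz
      exact ⟨(⌊z.re * 2 ^ L⌋, ⌊z.im * 2 ^ L⌋), hz, (DMS_mem L _ _ z).2 ⟨rfl, rfl⟩⟩
  · intro s t hst
    refine Set.disjoint_left.2 ?_
    rintro z ⟨-, hs⟩ ⟨-, ht⟩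
    apply hst
    rw [DMS_mem] at hs ht
    exact Prod.ext (hs.1.symm.trans ht.1) (hs.2.symm.trans ht.2)
  · intro s
    exact hX.inter (measurableSet_rc _ _ _ _)

end Pool.Agent.MW
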