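import Pool.Agent.helper37.MW.Spec

set_option autoImplicit false

namespace Pool.Agent.helper37.MW

open Finset Pool.Agent.NK

theorem MPS_le (p i : ℕ) (ρ : ℝ) (h1 : 1 / 3 ≤ ρ) (h2 : ρ ≤ 0.34) :
    mu p i ρ ≤ (p.choose i : ℝ) * ((0.34 : ℝ) ^ i * (2 / 3 : ℝ) ^ (p - i)) := by
  unfold mu
  refine mul_le_mul_of_nonneg_left ?_ (Nat.cast_nonneg _)
  exact mul_le_mul (pow_le_pow_left₀ (by linarith) h2 i)
    (pow_le_pow_left₀ (by linarith) (by linarith) _) (pow_nonneg (by linarith) _) (by positivity)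

theorem MPS : MPS_stmt := by
  intro ρ h1 h2
  refine ⟨?_, ?_, ?_, ?_, ?_⟩
  · have h3 : mu 3 1 ρ = 3 * ρ * (1 - ρ) ^ 2 := by
      have h4 : Nat.choose 3 1 = 3 := by decide
      unfold mu
      rw [h4]
      push_cast
      ring
    have h5 : 3 * ρ * (1 - ρ) ^ 2 = 4 / 9 - 3 * ((ρ - 1 / 3) ^ 2 * (4 / 3 - ρ)) := by ring
    have h6 : 0 ≤ (ρ - 1 / 3) ^ 2 * (4 / 3 - ρ) := mul_nonneg (sq_nonneg _) (by linarith)
    rw [h3, h5]
    linarith
  · refine (MPS_le 3 2 ρ h1 h2).trans ?_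
    norm_num [Nat.choose]
  · refine (MPS_le 4 1 ρ h1 h2).trans ?_
    norm_num [Nat.choose]
  · refine (MPS_le 4 2 ρ h1 h2).trans ?_
    norm_num [Nat.choose]
  · intro p i h3 h4 h5
    refine (MPS_le p i ρ h1 h2).trans ?_
    have h6 : 3 ≤ p := h3.trans h4
    interval_cases p <;> interval_cases i <;> norm_num [Nat.choose]

end Pool.Agent.helper37.MW
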